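import Pool.Agent.X212.Fill.Main

/-!
A subspace of an uncountable product of non-compact spaces which fills countable subproducts is
never paracompact.
-/

namespace Pool.Agent.Results.MP_5f6599_gt.NeverParacompact

universe u v

/-- `D` fills countable subproducts: for every nonempty countable set `J` of coordinates the
projection of `D` to the subproduct over `J` is onto. -/
def FillsCountableSubproducts {I : Type u} {X : I → Type v} (D : Set (∀ i, X i)) : Prop :=
  ∀ J : Set I, J.Nonempty → J.Countable → J.restrict '' D = Set.univ

/-- Let `I` be uncountable and let no factor `X i` be compact. If `D` fills countable subproducts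
of the product, then some open cover of `D` has no locally finite open refinement. -/
theorem result {I : Type u} [Uncountable I] {X : I → Type v} [∀ i, TopologicalSpace (X i)]
    (hX : ∀ i, ¬ CompactSpace (X i)) (D : Set (∀ i, X i))
    (hD : FillsCountableSubproducts D) : ¬ ParacompactSpace D := by
  refine Pool.Agent.X212.Fill.main hX D ?_
  intro a J hJ
  obtain ⟨i⟩ : Nonempty I := inferInstance
  have h := hD (insert i J) ⟨i, Set.mem_insert _ _⟩ (hJ.insert i)
  have h1 : (insert i J).restrict a ∈ (insert i J).restrict '' D := by rw [h]; trivial
  obtain ⟨x, hx, hxa⟩ := h1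
  exact ⟨x, hx, fun j hj => congrFun hxa ⟨j, Set.mem_insert_of_mem _ hj⟩⟩

end Pool.Agent.Results.MP_5f6599_gt.NeverParacompact
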